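import Pool.Agent.W543.GE.Stm

/-!
# Project GE, part U2
-/

set_option autoImplicit false

open scoped TensorProduct Kronecker Polynomial

universe u

namespace Pool.Agent.W513.GE

open Pool.Agent.W543.GE

section basic

variable {K : Type u} [Field K] {n : ℕ}

theorem ev_zero {S : Type u} [Ring S] [Algebra K S] (a : A K n) :
    ev (fun _ : Fin n => (0 : S)) a = algebraMap K S (eps a) := by
  have h : (ev (fun _ : Fin n => (0 : S)) : A K n →ₐ[K] S) = (Algebra.ofId K S).comp eps := by
    refine FreeAlgebra.hom_ext ?_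
    funext i
    simp [FreeAlgebra.algebraMapInv, Algebra.ofId_apply]
  rw [h]
  rfl

theorem ev_comp {S T : Type u} [Ring S] [Algebra K S] [Ring T] [Algebra K T] (ρ : S →ₐ[K] T)
    (d : Fin n → S) (a : A K n) : ev (fun i => ρ (d i)) a = ρ (ev d a) := by
  have h : (ev (fun i => ρ (d i)) : A K n →ₐ[K] T) = ρ.comp (ev d) := by
    refine FreeAlgebra.hom_ext ?_
    funext i
    simp
  rw [h]
  rfl

/-- The action of Kronecker products on vectors. -/
theorem kron_mulVec {F : Type u} [Field F] {N N' : ℕ} (X : Matrix (Fin N) (Fin N) F)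
    (Y : Matrix (Fin N') (Fin N') F) (v : Fin N × Fin N' → F) (p : Fin N) (r : Fin N') :
    ((X ⊗ₖ Y).mulVec v) (p, r) = ∑ q, X p q * (Y.mulVec (fun r' => v (q, r'))) r := by
  simp only [Matrix.mulVec, dotProduct, Matrix.kroneckerMap_apply, Fintype.sum_prod_type,
    Finset.mul_sum, mul_assoc]

/-- At the point `X = 0` only the constant term with respect to the first factor matters. -/
theorem kap_zero {N' : ℕ} (e : (A K n ⊗[K] A K n) ≃+* MonoidAlgebra (A K n) (FreeMonoid (Fin n)))
    (he : ∀ a b, (e (a ⊗ₜ b)).coeff 1 = eps a • b) (Y : Fin n → Matrix (Fin N') (Fin N') K)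
    (z : A K n ⊗[K] A K n) :
    kap (fun _ => (0 : Matrix (Fin 1) (Fin 1) K)) Y z =
      (1 : Matrix (Fin 1) (Fin 1) K) ⊗ₖ ev Y ((e z).coeff 1) := by
  induction z using TensorProduct.induction_on with
  | zero => rw [map_zero, map_zero, MonoidAlgebra.coeff_zero, Finsupp.zero_apply, map_zero,
      Matrix.kronecker_zero]
  | tmul a b =>
    rw [kap_tmul, he, ev_zero, map_smul, Algebra.algebraMap_eq_smul_one, Matrix.smul_kronecker,
      Matrix.kronecker_smul]
  | add a b ha hb =>
    rw [map_add, map_add, MonoidAlgebra.coeff_add, Finsupp.add_apply, map_add, ha, hb,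
      Matrix.kronecker_add]

theorem e_single (e : (A K n ⊗[K] A K n) ≃+* MonoidAlgebra (A K n) (FreeMonoid (Fin n)))
    (h1 : ∀ i, e (x i ⊗ₜ 1) = MonoidAlgebra.single (FreeMonoid.of i) 1)
    (h2 : ∀ a, e (1 ⊗ₜ a) = MonoidAlgebra.single 1 a) (i : Fin n) (a : A K n) :
    e.symm (MonoidAlgebra.single (FreeMonoid.of i) a) = x i ⊗ₜ a := by
  rw [RingEquiv.symm_apply_eq]
  have : (x i ⊗ₜ a : A K n ⊗[K] A K n) = (x i ⊗ₜ 1) * (1 ⊗ₜ a) := by
    rw [Algebra.TensorProduct.tmul_mul_tmul, one_mul, mul_one]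
  rw [this, map_mul, h1, h2, MonoidAlgebra.single_mul_single, mul_one, one_mul]

end basic

/-- The action of matrices over the free algebra on tuples of vectors. -/
noncomputable def act {K : Type u} [Field K] {n : ℕ} {F : Type u} [Field F] [Algebra K F]
    {N : ℕ} (Y : Fin n → Matrix (Fin N) (Fin N) F) (S : Type) [Fintype S] [DecidableEq S] :
    Matrix S S (A K n) →* Module.End F (S → (Fin N → F)) where
  toFun M :=
    { toFun := fun s a => ∑ b, (ev Y (M a b)).mulVec (s b)
      map_add' := fun s t => by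
        funext a
        simp only [Pi.add_apply, Matrix.mulVec_add, Finset.sum_add_distrib]
      map_smul' := fun c s => by
        funext a
        simp only [Pi.smul_apply, Matrix.mulVec_smul, Finset.smul_sum, RingHom.id_apply] }
  map_one' := by
    refine LinearMap.ext fun s => ?_
    funext a
    change ∑ b, (ev Y ((1 : Matrix S S (A K n)) a b)).mulVec (s b) = s a
    rw [Finset.sum_eq_single a]
    · rw [Matrix.one_apply_eq, map_one, Matrix.one_mulVec]
    · intro b _ hb
      rw [Matrix.one_apply_ne hb.symm, map_zero, Matrix.zero_mulVec]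
    · intro h; exact absurd (Finset.mem_univ a) h
  map_mul' M M' := by
    refine LinearMap.ext fun s => ?_
    funext a
    change ∑ c, (ev Y ((M * M') a c)).mulVec (s c) =
      ∑ b, (ev Y (M a b)).mulVec (∑ c, (ev Y (M' b c)).mulVec (s c))
    simp only [Matrix.mul_apply, map_sum, map_mul, Matrix.sum_mulVec, Matrix.mulVec_sum,
      Matrix.mulVec_mulVec]
    rw [Finset.sum_comm]

theorem act_apply {K : Type u} [Field K] {n : ℕ} {F : Type u} [Field F] [Algebra K F]
    {N : ℕ} (Y : Fin n → Matrix (Fin N) (Fin N) F) (S : Type) [Fintype S] [DecidableEq S]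
    (M : Matrix S S (A K n)) (s : S → (Fin N → F)) (a : S) :
    act Y S M s a = ∑ b, (ev Y (M a b)).mulVec (s b) := rfl

theorem act_zero {K : Type u} [Field K] {n : ℕ} {F : Type u} [Field F] [Algebra K F]
    {N : ℕ} (Y : Fin n → Matrix (Fin N) (Fin N) F) (S : Type) [Fintype S] [DecidableEq S]
    (M : Matrix S S (A K n)) (h : act Y S M = 0) (a b : S) : ev Y (M a b) = 0 := by
  refine Matrix.ext_of_mulVec_single fun i => ?_
  have h1 := act_apply Y S M (Pi.single b (Pi.single i 1)) a
  rw [h, Finset.sum_eq_single b] at h1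
  · rw [Pi.single_eq_same] at h1
    rw [← h1, Matrix.zero_mulVec]
    rfl
  · intro c _ hc
    rw [Pi.single_eq_of_ne hc, Matrix.mulVec_zero]
  · intro h'; exact absurd (Finset.mem_univ b) h'

/-- The action of the tensor product on the vectors. -/
noncomputable def EE {K : Type u} [Field K] {n : ℕ} {F : Type u} [Field F] [Algebra K F]
    {N N' : ℕ} (e : (A K n ⊗[K] A K n) ≃+* MonoidAlgebra (A K n) (FreeMonoid (Fin n)))
    (X : Fin n → Matrix (Fin N) (Fin N) F) (Y : Fin n → Matrix (Fin N') (Fin N') F) :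
    MonoidAlgebra (A K n) (FreeMonoid (Fin n)) →+* AddMonoid.End (Fin N × Fin N' → F) where
  toFun z :=
    { toFun := fun v => (kap X Y (e.symm z)).mulVec v
      map_zero' := Matrix.mulVec_zero _
      map_add' := Matrix.mulVec_add _ }
  map_one' := by
    refine AddMonoidHom.ext fun v => ?_
    change (kap X Y (e.symm 1)).mulVec v = v
    rw [map_one, map_one, Matrix.one_mulVec]
  map_mul' z w := by
    refine AddMonoidHom.ext fun v => ?_
    change (kap X Y (e.symm (z * w))).mulVec v =
      (kap X Y (e.symm z)).mulVec ((kap X Y (e.symm w)).mulVec v)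
    rw [map_mul, map_mul, Matrix.mulVec_mulVec]
  map_zero' := by
    refine AddMonoidHom.ext fun v => ?_
    change (kap X Y (e.symm 0)).mulVec v = 0
    rw [map_zero, map_zero, Matrix.zero_mulVec]
  map_add' z w := by
    refine AddMonoidHom.ext fun v => ?_
    change (kap X Y (e.symm (z + w))).mulVec v =
      (kap X Y (e.symm z)).mulVec v + (kap X Y (e.symm w)).mulVec v
    rw [map_add, map_add, Matrix.add_mulVec]

theorem EE_apply {K : Type u} [Field K] {n : ℕ} {F : Type u} [Field F] [Algebra K F]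
    {N N' : ℕ} (e : (A K n ⊗[K] A K n) ≃+* MonoidAlgebra (A K n) (FreeMonoid (Fin n)))
    (X : Fin n → Matrix (Fin N) (Fin N) F) (Y : Fin n → Matrix (Fin N') (Fin N') F)
    (z : MonoidAlgebra (A K n) (FreeMonoid (Fin n))) (v : Fin N × Fin N' → F) :
    EE e X Y z v = (kap X Y (e.symm z)).mulVec v := rfl

/-- The hypothesis of NIL. -/
theorem nil_hyp {K : Type u} [Field K] {n : ℕ} {F : Type u} [Field F] [Algebra K F]
    {N' : ℕ} (e : (A K n ⊗[K] A K n) ≃+* MonoidAlgebra (A K n) (FreeMonoid (Fin n)))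
    (h1 : ∀ i, e (x i ⊗ₜ 1) = MonoidAlgebra.single (FreeMonoid.of i) 1)
    (h2 : ∀ a, e (1 ⊗ₜ a) = MonoidAlgebra.single 1 a)
    (J : Matrix (Fin n) (Fin n) (A K n ⊗[K] A K n)) (hJ : PtInj K n J)
    (S : Type) [Fintype S] [DecidableEq S] (B : Fin n → Matrix S S (A K n))
    (hB : ∀ (V : Type u) [AddCommGroup V]
      (E : MonoidAlgebra (A K n) (FreeMonoid (Fin n)) →+* AddMonoid.End V),
      (∀ v : Fin n → V, (∀ k, ∑ i, E (e (J k i)) (v i) = 0) → v = 0) →
      ∀ s : S → V,
        (∀ a, s a = ∑ j, ∑ b, E (MonoidAlgebra.single (FreeMonoid.of j) (B j a b)) (s b)) →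
          s = 0)
    (Y : Fin n → Matrix (Fin N') (Fin N') F) (N : ℕ) (X : Fin n → Matrix (Fin N) (Fin N) F)
    (s : Fin N → (S → (Fin N' → F)))
    (hs : ∀ p, s p = ∑ j, ∑ q, X j p q • act Y S (B j) (s q)) : s = 0 := by
  have h := hB (Fin N × Fin N' → F) (EE e X Y) (by
    intro v hv
    refine hJ F N N' X Y v fun k => ?_
    rw [← hv k]
    refine Finset.sum_congr rfl fun i _ => ?_
    rw [EE_apply, RingEquiv.symm_apply_apply]) (fun a pr => s pr.1 a pr.2) (by
    intro a
    funext pr
    obtain ⟨p, r⟩ := pr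
    have hl := congrFun (congrFun (hs p) a) r
    change s p a r = _
    rw [hl]
    simp only [Finset.sum_apply, Pi.smul_apply, smul_eq_mul, act_apply, EE_apply,
      e_single e h1 h2, kap_tmul, FreeAlgebra.lift_ι_apply, kron_mulVec]
    refine Finset.sum_congr rfl fun j _ => ?_
    rw [Finset.sum_comm]
    refine Finset.sum_congr rfl fun q _ => ?_
    rw [Finset.mul_sum])
  funext p a r
  exact congrFun (congrFun h a) (p, r)

theorem t_U2 (hN : NIL_stmt.{u}) (hC : CHAIN_stmt.{u}) (hD : DIV_stmt.{u}) (hL : LIN_stmt.{u})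
    (hV : CONV_stmt.{u}) (h1 : U1_stmt.{u}) : U2_stmt.{u} := by
  intro K _ n J hJ
  obtain ⟨e, he1, he2, he3⟩ := hV K n
  -- the constant matrix
  have hM : IsUnit (Matrix.of fun k i => (e (J k i)).coeff 1 :
      Matrix (Fin n) (Fin n) (A K n)) := by
    refine h1 K n n _ fun N' Y v hv => ?_
    have h := hJ K 1 N' (fun _ => 0) Y (fun i pr => v i pr.2) (by
      intro k
      funext pr
      obtain ⟨p, r⟩ := pr
      have h0 := congrFun (hv k) r
      rw [Finset.sum_apply] at h0 ⊢
      refine Eq.trans (Finset.sum_congr rfl fun i _ => ?_) h0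
      change _ = ((ev Y) ((e (J k i)).coeff 1)).mulVec (v i) r
      rw [kap_zero e he3, kron_mulVec, Fintype.sum_unique]
      have hp : p = default := Subsingleton.elim _ _
      rw [hp, Matrix.one_apply_eq, one_mul])
    funext i r
    exact congrFun (congrFun h i) (0, r)
  obtain ⟨S, _, _, B, hB1, hB2⟩ := hL (A K n) n n (Matrix.of fun k i => e (J k i)) hM
  have hJ' : IsUnit (Matrix.of fun k i => e (J k i) :
      Matrix (Fin n) (Fin n) (MonoidAlgebra (A K n) (FreeMonoid (Fin n)))) := by
    refine hB1 ⟨Fintype.card S, fun w0 hw0 => ?_⟩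
    by_contra hne
    obtain ⟨p, q, hpq⟩ : ∃ p q, (w0.map B).prod p q ≠ 0 := by
      by_contra hcon
      push Not at hcon
      exact hne (Matrix.ext hcon)
    obtain ⟨D, _, _, _, F, _, _, N', ρ, d, hdiv, hρ, hd⟩ := hD K n _ hpq
    have hnil := hN F (S → (Fin N' → F)) n (fun j => act (fun i => ρ (d i)) S (B j))
      (fun N X s hs => nil_hyp e he1 he2 J hJ S B hB2 (fun i => ρ (d i)) N X s hs)
    obtain ⟨k, hk⟩ := hnil
    have hk' : ∀ w : List (Fin n), k ≤ w.length →
        (w.map fun j => (B j).map (ev d)).prod = 0 := by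
      intro w hw
      have e1 : (w.map fun j => (B j).map (ev d)).prod = ((w.map B).prod).map (ev d) := by
        have := map_list_prod (ev d : A K n →ₐ[K] D).toRingHom.mapMatrix (w.map B)
        rw [List.map_map] at this
        exact this.symm
      rw [e1]
      have e2 : act (fun i => ρ (d i)) S ((w.map B).prod) = 0 := by
        rw [map_list_prod, List.map_map]
        exact hk w hw
      refine Matrix.ext fun a b => ?_
      have e3 := act_zero (fun i => ρ (d i)) S _ e2 a b
      rw [ev_comp] at e3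
      exact (map_eq_zero_iff ρ hρ).mp e3
    have h3 := hC D hdiv S n (fun j => (B j).map (ev d)) ⟨k, hk'⟩ w0 hw0
    have e1 : (w0.map fun j => (B j).map (ev d)).prod = ((w0.map B).prod).map (ev d) := by
      have := map_list_prod (ev d : A K n →ₐ[K] D).toRingHom.mapMatrix (w0.map B)
      rw [List.map_map] at this
      exact this.symm
    rw [e1] at h3
    exact hd (congrFun (congrFun h3 p) q)
  have h4 : IsUnit (e.mapMatrix J) := hJ'
  exact (isUnit_map_iff e.mapMatrix J).mp h4

end Pool.Agent.W513.GE
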